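import Mathlib
import Pool.Agent.NegCirc.Defs
import Pool.Agent.NegCirc.Basic
import Pool.Agent.NegCirc.K3nDefs
import Pool.Agent.NegCirc.K3nCirc
import Pool.Agent.NegCirc.K3nCount
import Pool.Agent.NegCirc.K3nRatio
import Pool.Agent.NegCirc.K3nTypes

namespace Pool.Agent.Results.MP_5d73eb_co.ConeK3n

open Pool.Agent.NegCirc

private lemma vals {n : ℕ} (i₄ i₆ : Fin (Fintype.card (Fin 3 ⊕ Fin n)))
    (h₄ : (i₄ : ℕ) + 1 = 4) (h₆ : (i₆ : ℕ) + 1 = 6) (σ : Fin 3 × Fin n → ℤˣ) :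
    (∀ i, i ≠ i₄ → i ≠ i₆ → negVec (k3 n) σ i = 0) ∧
    negVec (k3 n) σ i₄ = 2 * (e2 (ct σ) : ℝ) ∧
    negVec (k3 n) σ i₆ = 2 * (((n : ℝ) - 2) * (e2 (ct σ) : ℝ) - 2 * (e3 (ct σ) : ℝ)) := by
  refine ⟨?_, ?_, ?_⟩
  · intro i h1 h2
    unfold negVec negCount
    rw [Nat.cast_eq_zero, Nat.card_eq_zero]
    left
    constructor
    rintro ⟨S, hS, hc, _⟩
    rcases circle_card hS with h | h
    · apply h1; apply Fin.ext; omega
    · apply h2; apply Fin.ext; omega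
  · unfold negVec
    rw [h₄, count_four']
  · unfold negVec
    rw [h₆, count_six']

/-- Every vector satisfying the inequalities is a combination of the two extreme vectors. -/
private lemma comb (n : ℕ) (hn : 3 ≤ n) (x : Fin (Fintype.card (Fin 3 ⊕ Fin n)) → ℝ)
    (i₄ i₆ : Fin (Fintype.card (Fin 3 ⊕ Fin n))) (h₄ : (i₄ : ℕ) + 1 = 4)
    (h₆ : (i₆ : ℕ) + 1 = 6)
    (h0 : ∀ i, i ≠ i₄ → i ≠ i₆ → x i = 0)
    (h1 : ((n : ℝ) - 2 - 2 * ((e3 (bal n) : ℝ) / (e2 (bal n) : ℝ))) * x i₄ ≤ x i₆)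
    (h2 : x i₆ ≤ ((n : ℝ) - 2) * x i₄) :
    ∃ s t : ℝ, 0 ≤ s ∧ 0 ≤ t ∧
      x = s • negVec (k3 n) (oneNeg n) + t • negVec (k3 n) (balSig n) := by
  obtain ⟨hE2, hE3⟩ := bal_pos hn
  have hE2' : (0 : ℝ) < (e2 (bal n) : ℝ) := by exact_mod_cast hE2
  have hE3' : (0 : ℝ) < (e3 (bal n) : ℝ) := by exact_mod_cast hE3
  rw [oneNeg_eq, balSig_eq]
  have hv := vals i₄ i₆ h₄ h₆
  set E2 : ℝ := (e2 (bal n) : ℝ) with hE2d
  set E3 : ℝ := (e3 (bal n) : ℝ) with hE3d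
  have hn1 : (0 : ℝ) < (n : ℝ) - 1 := by
    have : (3 : ℝ) ≤ (n : ℝ) := by exact_mod_cast hn
    linarith
  set lam : ℝ := (x i₆ - ((n : ℝ) - 2 - 2 * (E3 / E2)) * x i₄) * E2 /
    (4 * ((n : ℝ) - 1) * E3) with hlam
  set mu : ℝ := (((n : ℝ) - 2) * x i₄ - x i₆) / (4 * E3) with hmu
  have hlam0 : 0 ≤ lam := by
    apply div_nonneg (mul_nonneg (by linarith) hE2'.le)
    positivity
  have hmu0 : 0 ≤ mu := div_nonneg (by linarith) (by positivity)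
  obtain ⟨g1, g2⟩ := ct_t1 (n := n) (by omega)
  obtain ⟨g3, g4⟩ := ct_t2 n
  have g1' : (e2 (ct (sig (t1 n))) : ℝ) = (n : ℝ) - 1 := by
    rw [g1]; push_cast [Nat.cast_sub (show 1 ≤ n by omega)]; ring
  refine ⟨lam, mu, hlam0, hmu0, ?_⟩
  funext i
  simp only [Pi.add_apply, Pi.smul_apply, smul_eq_mul]
  by_cases hi4 : i = i₄
  · subst hi4
    rw [(hv _).2.1, (hv _).2.1, g1', g3, ← hE2d, hlam, hmu]
    have := hn1.ne'
    have := hE2'.ne'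
    have := hE3'.ne'
    field_simp
    ring
  · by_cases hi6 : i = i₆
    · subst hi6
      rw [(hv _).2.2, (hv _).2.2, g1', g2, g3, g4, ← hE2d, ← hE3d, hlam, hmu]
      have := hn1.ne'
      have := hE2'.ne'
      have := hE3'.ne'
      field_simp
      ring
    · rw [h0 i hi4 hi6, (hv _).1 i hi4 hi6, (hv _).1 i hi4 hi6]
      ring

private lemma comb_inCone (n : ℕ) (s t : ℝ) (hs : 0 ≤ s) (ht : 0 ≤ t) :
    InCone (k3 n) (s • negVec (k3 n) (oneNeg n) + t • negVec (k3 n) (balSig n)) := by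
  refine ⟨fun σ => (if σ = oneNeg n then s else 0) + (if σ = balSig n then t else 0), ?_, ?_⟩
  · intro σ
    apply add_nonneg <;> split_ifs <;> first | assumption | exact le_rfl
  · simp only [add_smul, Finset.sum_add_distrib, ite_smul, zero_smul,
      Finset.sum_ite_eq', Finset.mem_univ, if_true]

private lemma ineqs (n : ℕ) (hn : 3 ≤ n) (x : Fin (Fintype.card (Fin 3 ⊕ Fin n)) → ℝ)
    (i₄ i₆ : Fin (Fintype.card (Fin 3 ⊕ Fin n))) (h₄ : (i₄ : ℕ) + 1 = 4)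
    (h₆ : (i₆ : ℕ) + 1 = 6) (hx : InCone (k3 n) x) :
    (∀ i, i ≠ i₄ → i ≠ i₆ → x i = 0) ∧
      ((n : ℝ) - 2 - 2 * ((e3 (bal n) : ℝ) / (e2 (bal n) : ℝ))) * x i₄ ≤ x i₆ ∧
      x i₆ ≤ ((n : ℝ) - 2) * x i₄ := by
  obtain ⟨hE2, hE3⟩ := bal_pos hn
  have hE2' : (0 : ℝ) < (e2 (bal n) : ℝ) := by exact_mod_cast hE2
  have hv := vals i₄ i₆ h₄ h₆
  obtain ⟨l, hl, rfl⟩ := hx
  refine ⟨?_, ?_, ?_⟩
  · intro i h1 h2
    rw [Finset.sum_apply]
    apply Finset.sum_eq_zero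
    intro σ _
    simp [(hv σ).1 i h1 h2]
  · rw [Finset.sum_apply, Finset.sum_apply, Finset.mul_sum]
    apply Finset.sum_le_sum
    intro σ _
    simp only [Pi.smul_apply, smul_eq_mul]
    rw [(hv σ).2.1, (hv σ).2.2]
    have h1 : (e3 (ct σ) : ℝ) * (e2 (bal n) : ℝ) ≤ (e3 (bal n) : ℝ) * (e2 (ct σ) : ℝ) := by
      exact_mod_cast ratio_le n (ct σ) (ct_sum σ)
    have h2 : (e3 (ct σ) : ℝ) ≤ (e3 (bal n) : ℝ) / (e2 (bal n) : ℝ) * (e2 (ct σ) : ℝ) := by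
      rw [div_mul_eq_mul_div, le_div_iff₀ hE2']
      exact h1
    have h3 := mul_le_mul_of_nonneg_left h2 (hl σ)
    nlinarith [h3]
  · rw [Finset.sum_apply, Finset.sum_apply, Finset.mul_sum]
    apply Finset.sum_le_sum
    intro σ _
    simp only [Pi.smul_apply, smul_eq_mul]
    rw [(hv σ).2.1, (hv σ).2.2]
    have h1 : (0 : ℝ) ≤ (e3 (ct σ) : ℝ) := Nat.cast_nonneg _
    have h3 := mul_nonneg (hl σ) h1
    nlinarith [h3]

/-- The cone of negative circle vectors of `K_{3,n}`, `n ≥ 3`: it is the two-dimensional cone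
of all vectors that vanish outside the lengths 4 and 6 and satisfy
`(n - 2 - 2 M) c₄ ≤ c₆ ≤ (n - 2) c₄`, where `M = e₃ / e₂` is the quotient of the elementary
symmetric polynomials of the balanced quadruple `⌊n/4⌋, ⌊(n+1)/4⌋, ⌊(n+2)/4⌋, ⌊(n+3)/4⌋`.
Its two extreme rays are generated by the vectors of the signature with one negative edge and
of the balanced signature. -/
theorem result (n : ℕ) (hn : 3 ≤ n)
    (i₄ i₆ : Fin (Fintype.card (Fin 3 ⊕ Fin n))) (h₄ : (i₄ : ℕ) + 1 = 4)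
    (h₆ : (i₆ : ℕ) + 1 = 6) :
    (∀ x : Fin (Fintype.card (Fin 3 ⊕ Fin n)) → ℝ, InCone (k3 n) x ↔
      (∀ i, i ≠ i₄ → i ≠ i₆ → x i = 0) ∧
      ((n : ℝ) - 2 - 2 * ((e3 (bal n) : ℝ) / (e2 (bal n) : ℝ))) * x i₄ ≤ x i₆ ∧
      x i₆ ≤ ((n : ℝ) - 2) * x i₄) ∧
    (∀ x : Fin (Fintype.card (Fin 3 ⊕ Fin n)) → ℝ, InCone (k3 n) x ↔
      ∃ s t : ℝ, 0 ≤ s ∧ 0 ≤ t ∧
        x = s • negVec (k3 n) (oneNeg n) + t • negVec (k3 n) (balSig n)) ∧
    LinearIndependent ℝ ![negVec (k3 n) (oneNeg n), negVec (k3 n) (balSig n)] := by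
  refine ⟨?_, ?_, ?_⟩
  · intro x
    constructor
    · exact ineqs n hn x i₄ i₆ h₄ h₆
    · rintro ⟨h0, h1, h2⟩
      obtain ⟨s, t, hs, ht, hx⟩ := comb n hn x i₄ i₆ h₄ h₆ h0 h1 h2
      rw [hx]
      exact comb_inCone n s t hs ht
  · intro x
    constructor
    · intro hx
      obtain ⟨h0, h1, h2⟩ := ineqs n hn x i₄ i₆ h₄ h₆ hx
      exact comb n hn x i₄ i₆ h₄ h₆ h0 h1 h2
    · rintro ⟨s, t, hs, ht, rfl⟩
      exact comb_inCone n s t hs ht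
  · rw [LinearIndependent.pair_iff]
    intro s t hst
    obtain ⟨hE2, hE3⟩ := bal_pos hn
    have hE2' : (0 : ℝ) < (e2 (bal n) : ℝ) := by exact_mod_cast hE2
    have hE3' : (0 : ℝ) < (e3 (bal n) : ℝ) := by exact_mod_cast hE3
    have hv := vals i₄ i₆ h₄ h₆
    rw [oneNeg_eq, balSig_eq] at hst
    obtain ⟨g1, g2⟩ := ct_t1 (n := n) (by omega)
    obtain ⟨g3, g4⟩ := ct_t2 n
    have g1' : (e2 (ct (sig (t1 n))) : ℝ) = (n : ℝ) - 1 := by
      rw [g1]; push_cast [Nat.cast_sub (show 1 ≤ n by omega)]; ring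
    have hn1 : (0 : ℝ) < (n : ℝ) - 1 := by
      have : (3 : ℝ) ≤ (n : ℝ) := by exact_mod_cast hn
      linarith
    have q4 := congrFun hst i₄
    have q6 := congrFun hst i₆
    simp only [Pi.add_apply, Pi.smul_apply, smul_eq_mul, Pi.zero_apply] at q4 q6
    rw [(hv _).2.1, (hv _).2.1, g1', g3] at q4
    rw [(hv _).2.2, (hv _).2.2, g1', g2, g3, g4] at q6
    have ht : t * (e3 (bal n) : ℝ) = 0 := by
      have : (0 : ℝ) = ((n : ℝ) - 2) * 0 - 0 := by ring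
      push_cast at q6
      nlinarith [q4, q6]
    have ht0 : t = 0 := by
      rcases mul_eq_zero.1 ht with h | h
      · exact h
      · exact absurd h hE3'.ne'
    refine ⟨?_, ht0⟩
    rw [ht0] at q4
    have : s * ((n : ℝ) - 1) = 0 := by linarith
    rcases mul_eq_zero.1 this with h | h
    · exact h
    · exact absurd h hn1.ne'

end Pool.Agent.Results.MP_5d73eb_co.ConeK3n
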