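import Mathlib
import Pool.Agent.NegCirc.Defs
import Pool.Agent.NegCirc.Basic

namespace Pool.Agent.Results.MP_5d73eb_co.FullSpan

open Pool.Agent.NegCirc

/-- For every finite graph (loops and multiple edges allowed) the negative circle vectors of
its signatures span the whole coordinate space of the circle lengths: a vector lies in their
linear span if and only if it vanishes at all numbers that are not lengths of circles.  So
the dimension of the span is the number of different circle lengths. -/
theorem result (V E : Type) [Fintype V] [DecidableEq V] [Fintype E] [DecidableEq E]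
    (ends : E → Sym2 V) :
    (∀ x : Fin (Fintype.card V) → ℝ,
      x ∈ Submodule.span ℝ (Set.range (fun σ : E → ℤˣ => negVec ends σ)) ↔
        ∀ i : Fin (Fintype.card V), (¬ ∃ S, IsCircle ends S ∧ S.card = i + 1) → x i = 0) ∧
    Module.finrank ℝ (Submodule.span ℝ (Set.range (fun σ : E → ℤˣ => negVec ends σ))) =
      Nat.card {k : ℕ // ∃ S, IsCircle ends S ∧ S.card = k} := by
  classical
  have key : ∀ x : Fin (Fintype.card V) → ℝ,
      x ∈ Submodule.span ℝ (Set.range (fun σ : E → ℤˣ => negVec ends σ)) ↔
        ∀ i : Fin (Fintype.card V), (¬ ∃ S, IsCircle ends S ∧ S.card = i + 1) → x i = 0 := by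
    intro x
    constructor
    · intro hx
      refine Submodule.span_induction ?_ ?_ ?_ ?_ hx
      · rintro _ ⟨σ, rfl⟩ i hi
        have : negCount ends σ (i + 1) = 0 := by
          unfold negCount
          rw [Nat.card_eq_zero]
          left
          constructor
          rintro ⟨S, hS⟩
          exact hi ⟨S, hS.1, hS.2.1⟩
        simp [negVec, this]
      · intro i _; rfl
      · intro a b _ _ ha hb i hi
        simp [ha i hi, hb i hi]
      · intro c a _ ha i hi
        simp [ha i hi]
    · intro hx
      have hbasis : ∀ i : Fin (Fintype.card V), (∃ S, IsCircle ends S ∧ S.card = i + 1) →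
          Pi.single i (1 : ℝ) ∈
            Submodule.span ℝ (Set.range (fun σ : E → ℤˣ => negVec ends σ)) := by
        rintro i ⟨T, hT, hTi⟩
        have h1 : (Pi.single i (1 : ℝ) : Fin (Fintype.card V) → ℝ) =
            ∑ σ : E → ℤˣ, (-(2 / (2 : ℝ) ^ Fintype.card E) *
              (((∏ e ∈ T, σ e : ℤˣ) : ℤ) : ℝ)) • negVec ends σ := by
          funext j
          rw [Finset.sum_apply]
          simp only [Pi.smul_apply, smul_eq_mul, mul_assoc]
          rw [← Finset.mul_sum, sum_char_negVec ends T hT j]
          by_cases hij : j = i
          · subst hij
            rw [if_pos hTi, Pi.single_eq_same]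
            have : (2 : ℝ) ^ Fintype.card E ≠ 0 := by positivity
            field_simp
          · rw [if_neg, Pi.single_eq_of_ne hij]
            · ring
            · intro h
              apply hij
              apply Fin.ext
              omega
        rw [h1]
        apply Submodule.sum_mem
        intro σ _
        apply Submodule.smul_mem
        exact Submodule.subset_span ⟨σ, rfl⟩
      have h2 : x = ∑ i, x i • (Pi.single i (1 : ℝ) : Fin (Fintype.card V) → ℝ) := by
        funext j
        simp [Finset.sum_apply, Pi.single_apply]
      rw [h2]
      apply Submodule.sum_mem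
      intro i _
      by_cases hi : ∃ S, IsCircle ends S ∧ S.card = i + 1
      · exact Submodule.smul_mem _ _ (hbasis i hi)
      · rw [hx i hi, zero_smul]
        exact Submodule.zero_mem _
  refine ⟨key, ?_⟩
  set P : Fin (Fintype.card V) → Prop := fun i => ∃ S, IsCircle ends S ∧ S.card = i + 1 with hP
  have e1 : Submodule.span ℝ (Set.range (fun σ : E → ℤˣ => negVec ends σ)) ≃ₗ[ℝ]
      ({i // P i} → ℝ) :=
    { toFun := fun x i => x.1 i.1
      map_add' := by intro x y; rfl
      map_smul' := by intro c x; rfl
      invFun := fun y => ⟨fun i => if h : P i then y ⟨i, h⟩ else 0, by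
        rw [key]
        intro i hi
        exact dif_neg hi⟩
      left_inv := by
        intro x
        apply Subtype.ext
        funext i
        by_cases h : P i
        · simp [h]
        · simp only [h, dif_neg, not_false_eq_true]
          exact ((key x.1).1 x.2 i h).symm
      right_inv := by
        intro y
        funext i
        simp [i.2] }
  rw [e1.finrank_eq, Module.finrank_fintype_fun_eq_card, ← Nat.card_eq_fintype_card]
  apply Nat.card_congr
  exact
    { toFun := fun i => ⟨(i.1 : ℕ) + 1, i.2⟩
      invFun := fun k => ⟨⟨k.1 - 1, by
        obtain ⟨S, hS, hk⟩ := k.2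
        have h1 := circle_card_le hS
        have h2 := hS.1.card_pos
        omega⟩, by
        obtain ⟨S, hS, hk⟩ := k.2
        have h2 := hS.1.card_pos
        exact ⟨S, hS, by simp only; omega⟩⟩
      left_inv := by
        intro i
        apply Subtype.ext
        apply Fin.ext
        simp
      right_inv := by
        intro k
        apply Subtype.ext
        obtain ⟨S, hS, hk⟩ := k.2
        have h2 := hS.1.card_pos
        simp only
        omega }

end Pool.Agent.Results.MP_5d73eb_co.FullSpan
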