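import Mathlib
import Pool.Agent.NegCirc.Defs
import Pool.Agent.NegCirc.Basic
import Pool.Agent.NegCirc.ThetaDefs
import Pool.Agent.NegCirc.ThetaCirc
import Pool.Agent.NegCirc.ThetaCount

namespace Pool.Agent.Results.MP_5d73eb_co.ThetaCone

open Pool.Agent.NegCirc

private lemma extreme {m : ℕ} {a : Fin m → ℕ} (ha : ∀ i, 1 ≤ a i) (hS : Sidon a)
    (σ : ThE a → ℤˣ) (x x' : Fin (Fintype.card (ThV a)) → ℝ) (hx : InCone (theta a) x)
    (hx' : InCone (theta a) x') (hs : x + x' = negVec (theta a) σ) :
    ∃ c : ℝ, 0 ≤ c ∧ x = c • negVec (theta a) σ := by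
  classical
  obtain ⟨l, hl, hlx⟩ := hx
  obtain ⟨l', hl', hlx'⟩ := hx'
  have nonneg : ∀ (l : (ThE a → ℤˣ) → ℝ), (∀ σ, 0 ≤ l σ) → ∀ k,
      0 ≤ (∑ τ, l τ • negVec (theta a) τ) k := by
    intro l hl k
    rw [Finset.sum_apply]
    apply Finset.sum_nonneg
    intro τ _
    exact mul_nonneg (hl τ) (Nat.cast_nonneg _)
  -- every signature in the combination is compatible with `σ`
  have hcomp : ∀ τ, l τ ≠ 0 → ∀ i j, sgn σ i = sgn σ j → sgn τ i = sgn τ j := by
    intro τ hτ
    have main : ∀ i j : Fin m, i < j → sgn σ i = sgn σ j → sgn τ i = sgn τ j := by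
      intro i j hij hσ
      have hlt := pair_lt ha hij
      have h1 := ha i
      set k : Fin (Fintype.card (ThV a)) := ⟨a i + a j - 1, by omega⟩ with hkd
      have hk : a i + a j = (k : ℕ) + 1 := by rw [hkd]; simp only; omega
      have h2 := congrFun hs k
      rw [Pi.add_apply, negVec_pair ha hS σ hij k hk, if_neg (by simp [hσ])] at h2
      have h3 := nonneg l hl k
      have h4 := nonneg l' hl' k
      rw [← hlx] at h3
      rw [← hlx'] at h4
      have h5 : x k = 0 := by linarith
      rw [hlx, Finset.sum_apply] at h5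
      have h6 := (Finset.sum_eq_zero_iff_of_nonneg (fun τ _ => by
        exact mul_nonneg (hl τ) (Nat.cast_nonneg _))).1 h5 τ (Finset.mem_univ _)
      simp only [Pi.smul_apply, smul_eq_mul] at h6
      rcases mul_eq_zero.1 h6 with h7 | h7
      · exact absurd h7 hτ
      · rw [negVec_pair ha hS τ hij k hk] at h7
        by_contra hc
        rw [if_pos hc] at h7
        norm_num at h7
    intro i j hσ
    rcases lt_trichotomy i j with hij | hij | hij
    · exact main i j hij hσ
    · rw [hij]
    · exact (main j i hij hσ.symm).symm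
  have hc : ∀ τ, ∃ c : ℝ, 0 ≤ c ∧ l τ • negVec (theta a) τ = c • negVec (theta a) σ := by
    intro τ
    by_cases hτ : l τ = 0
    · exact ⟨0, le_rfl, by rw [hτ, zero_smul, zero_smul]⟩
    · have h1 := hcomp τ hτ
      by_cases hconst : ∀ i j, sgn τ i = sgn τ j
      · refine ⟨0, le_rfl, ?_⟩
        have : negVec (theta a) τ = 0 := by
          funext k
          by_cases hk : ∃ i j, i < j ∧ a i + a j = k + 1
          · obtain ⟨i, j, hij, hk⟩ := hk
            rw [negVec_pair ha hS τ hij k hk, if_neg (by simp [hconst i j])]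
            rfl
          · rw [negVec_nopair ha τ k hk]; rfl
        rw [this, smul_zero, zero_smul]
      · push Not at hconst
        obtain ⟨i₀, j₀, hij₀⟩ := hconst
        refine ⟨l τ, hl τ, ?_⟩
        congr 1
        rw [negVec_eq_iff ha hS]
        have h2 : sgn σ i₀ ≠ sgn σ j₀ := fun h => hij₀ (h1 _ _ h)
        have two : ∀ b c d : Bool, b ≠ c → d = b ∨ d = c := by decide
        intro i j
        constructor
        · intro h h3
          exact h (h1 _ _ h3)
        · intro h h3
          rcases two _ _ (sgn σ i) h2 with e | e <;> rcases two _ _ (sgn σ j) h2 with e' | e'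
          · exact h (e.trans e'.symm)
          · exact hij₀ ((h1 _ _ e).symm.trans (h3.trans (h1 _ _ e')))
          · exact hij₀ ((h1 _ _ e').symm.trans (h3.symm.trans (h1 _ _ e)))
          · exact h (e.trans e'.symm)
  choose c hc0 hc1 using hc
  refine ⟨∑ τ, c τ, Finset.sum_nonneg (fun τ _ => hc0 τ), ?_⟩
  rw [hlx, Finset.sum_smul]
  exact Finset.sum_congr rfl (fun τ _ => hc1 τ)

private lemma count {m : ℕ} {a : Fin (m + 1) → ℕ} (ha : ∀ i, 1 ≤ a i) (hS : Sidon a) :
    (Set.range (fun σ : ThE a → ℤˣ => negVec (theta a) σ) \ {0}).ncard = 2 ^ m - 1 := by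
  classical
  set φ : (Fin m → Bool) → (Fin (Fintype.card (ThV a)) → ℝ) :=
    fun s => negVec (theta a) (sgnSig a (Fin.cons false s)) with hφ
  have hinj : Function.Injective φ := by
    intro s s' h
    rw [hφ] at h
    simp only at h
    rw [negVec_eq_iff ha hS] at h
    simp only [sgn_sgnSig ha] at h
    funext i
    have h1 := h 0 i.succ
    simp only [Fin.cons_zero, Fin.cons_succ] at h1
    have key : ∀ b c : Bool, ((false ≠ b) ↔ (false ≠ c)) → b = c := by decide
    exact key _ _ h1
  have hrange : Set.range (fun σ : ThE a → ℤˣ => negVec (theta a) σ) = Set.range φ := by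
    ext v
    constructor
    · rintro ⟨σ, rfl⟩
      refine ⟨fun i => xor (sgn σ i.succ) (sgn σ 0), ?_⟩
      rw [hφ]
      simp only
      rw [negVec_eq_iff ha hS]
      simp only [sgn_sgnSig ha]
      have e : ∀ i : Fin (m + 1), (Fin.cons false (fun i : Fin m => xor (sgn σ i.succ) (sgn σ 0)) :
          Fin (m + 1) → Bool) i = xor (sgn σ i) (sgn σ 0) := by
        intro i
        refine Fin.cases ?_ (fun i => ?_) i
        · simp
        · simp
      intro i j
      rw [e, e]
      generalize sgn σ i = b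
      generalize sgn σ j = c
      generalize sgn σ 0 = d
      revert b c d
      decide
    · rintro ⟨s, rfl⟩
      exact ⟨_, rfl⟩
  have hzero : (0 : Fin (Fintype.card (ThV a)) → ℝ) ∈ Set.range φ := by
    rw [← hrange]
    refine ⟨sgnSig a (fun _ => false), ?_⟩
    funext k
    by_cases hk : ∃ i j, i < j ∧ a i + a j = k + 1
    · obtain ⟨i, j, hij, hk⟩ := hk
      simp only
      rw [negVec_pair ha hS _ hij k hk, sgn_sgnSig ha]
      simp
    · simp only
      rw [negVec_nopair ha _ k hk]; rfl
  rw [hrange, Set.ncard_diff_singleton_of_mem hzero]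
  congr 1
  rw [← Set.image_univ, Set.ncard_image_of_injective _ hinj, Set.ncard_univ,
    Nat.card_eq_fintype_card]
  simp

/-- Generalized theta graphs whose `m` paths have lengths with pairwise different pair sums:
the cone of negative circle vectors is the cut cone of `m` points in the coordinates
`c (a i + a j)`; all `2 ^ (m - 1) - 1` nonzero negative circle vectors generate extreme rays. -/
theorem result (m : ℕ) (hm : 1 ≤ m) (a : Fin m → ℕ) (ha : ∀ i, 1 ≤ a i)
    (hS : ∀ i j i' j', i < j → i' < j' → a i + a j = a i' + a j' → i = i' ∧ j = j') :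
    (∀ x : Fin (Fintype.card (ThV a)) → ℝ, InCone (theta a) x ↔
      (∀ k : Fin (Fintype.card (ThV a)), (¬ ∃ i j, i < j ∧ a i + a j = k + 1) → x k = 0) ∧
      ∃ y : Fin m → Fin m → ℝ, InCutCone y ∧ ∀ (i j : Fin m)
        (k : Fin (Fintype.card (ThV a))), i < j → a i + a j = k + 1 → x k = y i j) ∧
    (∀ (σ : ThE a → ℤˣ) (x x' : Fin (Fintype.card (ThV a)) → ℝ), InCone (theta a) x →
      InCone (theta a) x' → x + x' = negVec (theta a) σ →
        ∃ c : ℝ, 0 ≤ c ∧ x = c • negVec (theta a) σ) ∧
    (Set.range (fun σ : ThE a → ℤˣ => negVec (theta a) σ) \ {0}).ncard = 2 ^ (m - 1) - 1 := by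
  refine ⟨cone_sidon ha hS, extreme ha hS, ?_⟩
  obtain ⟨m', rfl⟩ : ∃ m', m = m' + 1 := ⟨m - 1, by omega⟩
  exact count ha hS

end Pool.Agent.Results.MP_5d73eb_co.ThetaCone
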