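import Mathlib
import Pool.Agent.NegCirc.Defs
import Pool.Agent.NegCirc.Basic
import Pool.Agent.NegCirc.ThetaDefs
import Pool.Agent.NegCirc.ThetaCirc
import Pool.Agent.NegCirc.ThetaCount

namespace Pool.Agent.Results.MP_5d73eb_co.ThetaFacets

open Pool.Agent.NegCirc

private lemma cut_of_list {m r : ℕ} (y : Fin m → Fin m → ℝ) (al : Fin r → ℝ)
    (s : Fin r → Fin m → Bool) (h0 : ∀ t, 0 ≤ al t)
    (h : ∀ i j, y i j = ∑ t, al t * (if s t i ≠ s t j then 1 else 0)) : InCutCone y := by
  classical
  refine ⟨fun u => ∑ t, if s t = u then al t else 0, ?_, ?_⟩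
  · intro u
    apply Finset.sum_nonneg
    intro t _
    split_ifs
    · exact h0 t
    · exact le_rfl
  · intro i j
    rw [h i j]
    simp only [Finset.sum_mul]
    rw [Finset.sum_comm]
    apply Finset.sum_congr rfl
    intro t _
    rw [Finset.sum_eq_single (s t)]
    · rw [if_pos rfl]
    · intro u _ hu
      rw [if_neg (fun h => hu h.symm), zero_mul]
    · intro h; exact absurd (Finset.mem_univ _) h

private lemma cut_three (y : Fin 3 → Fin 3 → ℝ) (hsym : ∀ i j, y i j = y j i)
    (hd : ∀ i, y i i = 0) (ht : ∀ i j k, i ≠ j → i ≠ k → j ≠ k → y i j ≤ y i k + y j k) :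
    InCutCone y := by
  have h1 := ht 0 1 2 (by decide) (by decide) (by decide)
  have h2 := ht 0 2 1 (by decide) (by decide) (by decide)
  have h3 := ht 1 2 0 (by decide) (by decide) (by decide)
  have s01 := hsym 1 0
  have s02 := hsym 2 0
  have s12 := hsym 2 1
  have d0 := hd 0
  have d1 := hd 1
  have d2 := hd 2
  apply cut_of_list y
    ![(y 0 1 + y 0 2 - y 1 2) / 2, (y 0 1 + y 1 2 - y 0 2) / 2, (y 0 2 + y 1 2 - y 0 1) / 2]
    ![![true, false, false], ![false, true, false], ![false, false, true]]
  · intro t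
    fin_cases t <;> simp <;> linarith
  · intro i j
    rw [Fin.sum_univ_three]
    fin_cases i <;> fin_cases j <;> simp <;> linarith

private lemma cut_four (y : Fin 4 → Fin 4 → ℝ) (hsym : ∀ i j, y i j = y j i)
    (hd : ∀ i, y i i = 0) (ht : ∀ i j k, i ≠ j → i ≠ k → j ≠ k → y i j ≤ y i k + y j k) :
    InCutCone y := by
  have t : ∀ i j k, i ≠ j → i ≠ k → j ≠ k → y i j ≤ y i k + y j k := ht
  have a1 := t 0 1 2 (by decide) (by decide) (by decide)
  have a2 := t 0 2 1 (by decide) (by decide) (by decide)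
  have a3 := t 1 2 0 (by decide) (by decide) (by decide)
  have b1 := t 0 1 3 (by decide) (by decide) (by decide)
  have b2 := t 0 3 1 (by decide) (by decide) (by decide)
  have b3 := t 1 3 0 (by decide) (by decide) (by decide)
  have c1 := t 0 2 3 (by decide) (by decide) (by decide)
  have c2 := t 0 3 2 (by decide) (by decide) (by decide)
  have c3 := t 2 3 0 (by decide) (by decide) (by decide)
  have e1 := t 1 2 3 (by decide) (by decide) (by decide)
  have e2 := t 1 3 2 (by decide) (by decide) (by decide)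
  have e3 := t 2 3 1 (by decide) (by decide) (by decide)
  have s01 := hsym 1 0
  have s02 := hsym 2 0
  have s03 := hsym 3 0
  have s12 := hsym 2 1
  have s13 := hsym 3 1
  have s23 := hsym 3 2
  have d0 := hd 0
  have d1 := hd 1
  have d2 := hd 2
  have d3 := hd 3
  have hmax : (y 0 1 + y 2 3 ≤ y 0 3 + y 1 2 ∧ y 0 2 + y 1 3 ≤ y 0 3 + y 1 2) ∨
      (y 0 1 + y 2 3 ≤ y 0 2 + y 1 3 ∧ y 0 3 + y 1 2 ≤ y 0 2 + y 1 3) ∨
      (y 0 2 + y 1 3 ≤ y 0 1 + y 2 3 ∧ y 0 3 + y 1 2 ≤ y 0 1 + y 2 3) := by
    rcases le_total (y 0 1 + y 2 3) (y 0 3 + y 1 2) with p | p <;>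
      rcases le_total (y 0 2 + y 1 3) (y 0 3 + y 1 2) with q | q <;>
      rcases le_total (y 0 1 + y 2 3) (y 0 2 + y 1 3) with r | r
    · exact Or.inl ⟨p, q⟩
    · exact Or.inl ⟨p, q⟩
    · exact Or.inr (Or.inl ⟨r, q⟩)
    · exact Or.inr (Or.inl ⟨by linarith, q⟩)
    · exact Or.inr (Or.inr ⟨by linarith, p⟩)
    · exact Or.inr (Or.inr ⟨r, p⟩)
    · exact Or.inr (Or.inl ⟨r, q⟩)
    · exact Or.inr (Or.inr ⟨r, p⟩)
  rcases hmax with ⟨p, q⟩ | ⟨p, q⟩ | ⟨p, q⟩
  · -- 03|12 is the largest sum
    apply cut_of_list y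
      ![(y 0 1 + y 0 2 - y 1 2) / 2, (y 0 1 + y 1 3 - y 0 3) / 2, (y 0 2 + y 2 3 - y 0 3) / 2,
        (y 1 3 + y 2 3 - y 1 2) / 2, (y 0 3 + y 1 2 - y 0 1 - y 2 3) / 2,
        (y 0 3 + y 1 2 - y 0 2 - y 1 3) / 2]
      ![![true, false, false, false], ![false, true, false, false], ![false, false, true, false],
        ![false, false, false, true], ![true, true, false, false], ![true, false, true, false]]
    · intro t
      fin_cases t <;> simp <;> linarith
    · intro i j
      simp only [Fin.sum_univ_succ, Fin.sum_univ_zero]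
      fin_cases i <;> fin_cases j <;> simp [Fin.succ] <;> linarith
  · -- 02|13 is the largest sum
    apply cut_of_list y
      ![(y 0 1 + y 0 3 - y 1 3) / 2, (y 0 1 + y 1 2 - y 0 2) / 2, (y 1 2 + y 2 3 - y 1 3) / 2,
        (y 0 3 + y 2 3 - y 0 2) / 2, (y 0 2 + y 1 3 - y 0 1 - y 2 3) / 2,
        (y 0 2 + y 1 3 - y 0 3 - y 1 2) / 2]
      ![![true, false, false, false], ![false, true, false, false], ![false, false, true, false],
        ![false, false, false, true], ![true, true, false, false], ![true, false, false, true]]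
    · intro t
      fin_cases t <;> simp <;> linarith
    · intro i j
      simp only [Fin.sum_univ_succ, Fin.sum_univ_zero]
      fin_cases i <;> fin_cases j <;> simp [Fin.succ] <;> linarith
  · -- 01|23 is the largest sum
    apply cut_of_list y
      ![(y 0 2 + y 0 3 - y 2 3) / 2, (y 1 2 + y 1 3 - y 2 3) / 2, (y 0 2 + y 1 2 - y 0 1) / 2,
        (y 0 3 + y 1 3 - y 0 1) / 2, (y 0 1 + y 2 3 - y 0 2 - y 1 3) / 2,
        (y 0 1 + y 2 3 - y 0 3 - y 1 2) / 2]
      ![![true, false, false, false], ![false, true, false, false], ![false, false, true, false],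
        ![false, false, false, true], ![true, false, true, false], ![true, false, false, true]]
    · intro t
      fin_cases t <;> simp <;> linarith
    · intro i j
      simp only [Fin.sum_univ_succ, Fin.sum_univ_zero]
      fin_cases i <;> fin_cases j <;> simp [Fin.succ] <;> linarith

private lemma cut_triangle {m : ℕ} {y : Fin m → Fin m → ℝ} (h : InCutCone y) (i j k : Fin m) :
    y i j ≤ y i k + y j k ∧ y i j = y j i := by
  obtain ⟨μ, hμ, hy⟩ := h
  constructor
  · rw [hy, hy, hy, ← Finset.sum_add_distrib]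
    apply Finset.sum_le_sum
    intro s _
    rw [← mul_add]
    apply mul_le_mul_of_nonneg_left _ (hμ s)
    have key : ∀ b c d : Bool, (if b ≠ c then (1 : ℝ) else 0) ≤
        (if b ≠ d then 1 else 0) + (if c ≠ d then 1 else 0) := by
      intro b c d
      cases b <;> cases c <;> cases d <;> norm_num
    exact key _ _ _
  · rw [hy, hy]
    apply Finset.sum_congr rfl
    intro s _
    congr 1
    simp only [ne_comm]

/-- Theta graphs with three paths and generalized theta graphs with four paths whose pair sums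
`a i + a j` are different: the cone of negative circle vectors is given by the equations
`x k = 0` (no circle of length `k`) and the triangle inequalities
`x (a i + a j) ≤ x (a i + a k) + x (a j + a k)`. -/
theorem result (m : ℕ) (hm : m = 3 ∨ m = 4) (a : Fin m → ℕ) (ha : ∀ i, 1 ≤ a i)
    (hS : ∀ i j i' j', i < j → i' < j' → a i + a j = a i' + a j' → i = i' ∧ j = j')
    (x : Fin (Fintype.card (ThV a)) → ℝ) :
    InCone (theta a) x ↔
      (∀ k : Fin (Fintype.card (ThV a)), (¬ ∃ i j, i < j ∧ a i + a j = k + 1) → x k = 0) ∧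
      ∀ (i j k : Fin m), i ≠ j → i ≠ k → j ≠ k →
        ∀ (p q r : Fin (Fintype.card (ThV a))), a i + a j = p + 1 → a i + a k = q + 1 →
          a j + a k = r + 1 → x p ≤ x q + x r := by
  have ext : ∀ {i j : Fin m} (y : Fin m → Fin m → ℝ), InCutCone y →
      (∀ (i j : Fin m) (k : Fin (Fintype.card (ThV a))), i < j → a i + a j = k + 1 →
        x k = y i j) → i ≠ j → ∀ k : Fin (Fintype.card (ThV a)), a i + a j = k + 1 →
        x k = y i j := by
    intro i j y hy h hij k hk
    rcases lt_or_gt_of_ne hij with h1 | h1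
    · exact h i j k h1 hk
    · rw [h j i k h1 (by rw [add_comm]; exact hk)]
      exact (cut_triangle hy j i i).2
  rw [cone_sidon ha hS]
  apply and_congr_right
  intro h0
  constructor
  · rintro ⟨y, hy, hx⟩ i j k hij hik hjk p q r hp hq hr
    rw [ext y hy hx hij p hp, ext y hy hx hik q hq, ext y hy hx hjk r hr]
    exact (cut_triangle hy i j k).1
  · intro ht
    -- the coordinates as a symmetric function
    have hidx : ∀ i j : Fin m, i ≠ j → a i + a j ≤ Fintype.card (ThV a) := by
      intro i j hij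
      rcases lt_or_gt_of_ne hij with h1 | h1
      · exact pair_lt ha h1
      · rw [add_comm]; exact pair_lt ha h1
    have hex : ∀ i j : Fin m, ∃ v : ℝ, (i = j → v = 0) ∧
        (i ≠ j → ∀ k : Fin (Fintype.card (ThV a)), a i + a j = k + 1 → v = x k) := by
      intro i j
      by_cases hij : i = j
      · exact ⟨0, fun _ => rfl, fun h => absurd hij h⟩
      · have h1 := hidx i j hij
        have h2 := ha i
        refine ⟨x ⟨a i + a j - 1, by omega⟩, fun h => absurd h hij, ?_⟩
        intro _ k hk
        congr 1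
        apply Fin.ext
        simp only
        omega
    choose y hy0 hy1 using hex
    have hpos : ∀ i j : Fin m, i ≠ j → ∃ k : Fin (Fintype.card (ThV a)), a i + a j = k + 1 := by
      intro i j hij
      have h1 := hidx i j hij
      have h2 := ha i
      exact ⟨⟨a i + a j - 1, by omega⟩, by simp only; omega⟩
    have hsym : ∀ i j, y i j = y j i := by
      intro i j
      by_cases hij : i = j
      · rw [hij]
      · obtain ⟨k, hk⟩ := hpos i j hij
        rw [hy1 i j hij k hk, hy1 j i (fun h => hij h.symm) k (by rw [add_comm]; exact hk)]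
    have hd : ∀ i, y i i = 0 := fun i => hy0 i i rfl
    have htri : ∀ i j k, i ≠ j → i ≠ k → j ≠ k → y i j ≤ y i k + y j k := by
      intro i j k hij hik hjk
      obtain ⟨p, hp⟩ := hpos i j hij
      obtain ⟨q, hq⟩ := hpos i k hik
      obtain ⟨r, hr⟩ := hpos j k hjk
      rw [hy1 i j hij p hp, hy1 i k hik q hq, hy1 j k hjk r hr]
      exact ht i j k hij hik hjk p q r hp hq hr
    refine ⟨y, ?_, fun i j k hij hk => (hy1 i j (ne_of_lt hij) k hk).symm⟩
    rcases hm with rfl | rfl
    · exact cut_three y hsym hd htri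
    · exact cut_four y hsym hd htri

end Pool.Agent.Results.MP_5d73eb_co.ThetaFacets
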